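import Pool.Agent.H34.N6.LibB
import Pool.Agent.H12.QC.I1
import Pool.Agent.H23.QCF.Lib

/-!
# Two quadrics in `ℙ⁶`: places
-/

set_option autoImplicit false

open Polynomial NumberField IsDedekindDomain Matrix Pool.Agent.H32.QC

namespace Pool.Agent.H34.N6

section norms

variable {K : Type} [Field K] [NumberField K]

theorem norm_le_one_iff (v : FPl K) (x : v.adicCompletion K) : ‖x‖ ≤ 1 ↔ Valued.v x ≤ 1 :=
  Valued.toNormedField.norm_le_one_iff

theorem norm_ic_le_one_iff (v : FPl K) (x : K) : ‖ic v x‖ ≤ 1 ↔ v.valuation K x ≤ 1 := by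
  rw [norm_le_one_iff]
  have h : Valued.v (ic v x) = v.valuation K x := by
    exact HeightOneSpectrum.valuedAdicCompletion_eq_valuation' v x
  rw [h]

/-- almost all places -/
theorem int_fin (x : K) : {v : FPl K | ¬ ‖ic v x‖ ≤ 1}.Finite := by
  by_cases hx : x = 0
  · apply Set.Finite.subset Set.finite_empty
    intro v hv
    apply hv
    rw [hx, map_zero, norm_zero]
    exact zero_le_one
  · apply (Pool.Agent.H23.QCF.supp_fin hx).subset
    intro v hv h
    apply hv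
    rw [norm_ic_le_one_iff, h]

theorem poly_int_fin (G : K[X]) : {v : FPl K | ¬ Int v G}.Finite := by
  have h : {v : FPl K | ¬ Int v G} ⊆ ⋃ i ∈ G.support, {v : FPl K | ¬ ‖ic v (G.coeff i)‖ ≤ 1} := by
    intro v hv
    have h1 : ¬ ∀ i, ‖ic v (G.coeff i)‖ ≤ 1 := hv
    push Not at h1
    obtain ⟨i, hi⟩ := h1
    have h2 : i ∈ G.support := by
      rw [Polynomial.mem_support_iff]
      intro h3
      rw [h3, map_zero, norm_zero] at hi
      linarith
    simp only [Set.mem_iUnion]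
    exact ⟨i, h2, not_le.2 hi⟩
  exact (Set.Finite.biUnion G.support.finite_toSet fun i _ => int_fin _).subset h

theorem norm_two_le (v : FPl K) : ‖ic v 2‖ ≤ 1 := by
  rw [norm_ic_le_one_iff]
  have h : (2 : K) = algebraMap (𝓞 K) K 2 := (map_ofNat (algebraMap (𝓞 K) K) 2).symm
  rw [h]
  exact v.valuation_le_one _

theorem bad_fin {P D : K[X]} (hP : P.Separable) (hD : IsCoprime P D) :
    {v : FPl K | ¬ GoodAt P D v}.Finite := by
  obtain ⟨a, b, hab⟩ := hP
  obtain ⟨c, d, hcd⟩ := hD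
  have h2 : (2 : K)⁻¹ ≠ 0 := inv_ne_zero two_ne_zero
  have h : {v : FPl K | ¬ GoodAt P D v} ⊆ {v : FPl K | ¬ ‖ic v (2 : K)⁻¹‖ ≤ 1} ∪
      {v : FPl K | ¬ Int v P} ∪ {v : FPl K | ¬ Int v D} ∪ {v : FPl K | ¬ Int v a} ∪
      {v : FPl K | ¬ Int v b} ∪ {v : FPl K | ¬ Int v c} ∪ {v : FPl K | ¬ Int v d} := by
    intro v hv
    by_contra hcon
    simp only [Set.mem_union, Set.mem_ofPred_eq, not_or, not_not] at hcon
    obtain ⟨⟨⟨⟨⟨⟨h1, h2⟩, h3⟩, h4⟩, h5⟩, h6⟩, h7⟩ := hcon
    apply hv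
    refine ⟨?_, h2, h3, ⟨a, b, h4, h5, hab⟩, ⟨c, d, h6, h7, hcd⟩⟩
    apply le_antisymm (norm_two_le v)
    rw [map_inv₀, norm_inv] at h1
    have h8 : 0 < ‖ic v 2‖ := by
      rw [norm_pos_iff]
      exact (map_ne_zero (ic v)).2 two_ne_zero
    exact (inv_le_one₀ h8).1 h1
  exact (((((((int_fin _).union (poly_int_fin _)).union (poly_int_fin _)).union
    (poly_int_fin _)).union (poly_int_fin _)).union (poly_int_fin _)).union
      (poly_int_fin _)).subset h

end norms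

section up

variable {k K : Type} [Field k] [NumberField k] [Field K] [NumberField K] [Algebra k K]

/-- a ring homomorphism from the completion below -/
theorem exists_up (w : FPl K) : ∃ φ : (w.under (𝓞 k)).adicCompletion k →+* w.adicCompletion K,
    Continuous φ ∧ ∀ x : k, φ (ic (w.under (𝓞 k)) x) = ic w (algebraMap k K x) :=
  Pool.Agent.H12.QC.exists_ringHom w

theorem LocCZ.up {n : ℕ} {A B : Matrix (Fin n) (Fin n) k} (h : LocCZ A B) :
    LocCZ (A.map (algebraMap k K)) (B.map (algebraMap k K)) := by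
  intro w
  cases w with
  | inl w =>
    obtain ⟨φ, -, hφ⟩ := exists_up (k := k) w
    have h1 : CZ (A.map (ic (w.under (𝓞 k)))) (B.map (ic (w.under (𝓞 k)))) :=
      h (Sum.inl (w.under (𝓞 k)))
    have h2 := h1.map φ
    have e1 : ∀ M : Matrix (Fin n) (Fin n) k, (M.map (ic (w.under (𝓞 k)))).map φ =
        (M.map (algebraMap k K)).map (ic w) := by
      intro M
      refine Matrix.ext fun i j => ?_
      rw [Matrix.map_apply, Matrix.map_apply, Matrix.map_apply, Matrix.map_apply]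
      exact hφ _
    rw [e1, e1] at h2
    exact h2
  | inr ψ =>
    have h1 : CZ (A.map (ψ.comp (algebraMap k K))) (B.map (ψ.comp (algebraMap k K))) :=
      h (Sum.inr (ψ.comp (algebraMap k K)))
    exact h1

/-- a continuous ring homomorphism of normed fields preserves integrality -/
theorem norm_le_of_cont {F₁ F₂ : Type} [NormedField F₁] [NormedField F₂] (φ : F₁ →+* F₂)
    (hφ : Continuous φ) {p : F₁} (hp : p ≠ 0) (hp1 : ‖p‖ < 1) {x : F₁} (hx : ‖x‖ ≤ 1) :
    ‖φ x‖ ≤ 1 := by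
  by_contra hcon
  push Not at hcon
  have key : ∀ y : F₁, ‖y‖ < 1 → ‖φ y‖ < 1 := by
    intro y hy
    by_contra h1
    push Not at h1
    have h2 : Filter.Tendsto (fun n : ℕ => φ (y ^ n)) Filter.atTop (nhds (φ 0)) :=
      (hφ.tendsto 0).comp (tendsto_pow_atTop_nhds_zero_of_norm_lt_one hy)
    rw [map_zero] at h2
    have h3 := h2.norm
    rw [norm_zero] at h3
    have h4 : ∀ n : ℕ, (1 : ℝ) ≤ ‖φ (y ^ n)‖ := by
      intro n
      rw [map_pow, norm_pow]
      exact one_le_pow₀ h1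
    have h5 := ge_of_tendsto h3 (Filter.Eventually.of_forall h4)
    linarith
  have hpos : 0 < ‖φ p‖ := norm_pos_iff.2 ((map_ne_zero φ).2 hp)
  obtain ⟨n, hn⟩ := pow_unbounded_of_one_lt (‖φ p‖)⁻¹ hcon
  have h1 : ‖x ^ n * p‖ < 1 := by
    rw [norm_mul, norm_pow]
    calc ‖x‖ ^ n * ‖p‖ ≤ 1 * ‖p‖ :=
          mul_le_mul_of_nonneg_right (pow_le_one₀ (norm_nonneg _) hx) (norm_nonneg _)
      _ < 1 := by rw [one_mul]; exact hp1
  have h2 := key _ h1
  rw [map_mul, norm_mul, map_pow, norm_pow] at h2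
  have h3 : 1 < ‖φ x‖ ^ n * ‖φ p‖ := by
    have h4 := mul_lt_mul_of_pos_right hn hpos
    rw [inv_mul_cancel₀ hpos.ne'] at h4
    exact h4
  linarith

theorem exists_small (v : FPl k) : ∃ p : v.adicCompletion k, p ≠ 0 ∧ ‖p‖ < 1 := by
  obtain ⟨x, hx⟩ := v.valuation_exists_uniformizer k
  refine ⟨ic v x, ?_, ?_⟩
  · apply (map_ne_zero (ic v)).2
    intro h
    rw [h, map_zero] at hx
    exact WithZero.exp_ne_zero hx.symm
  · have h1 : Valued.v (ic v x) = v.valuation k x :=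
      HeightOneSpectrum.valuedAdicCompletion_eq_valuation' v x
    have h2 : ‖ic v x‖ < 1 ↔ Valued.v (ic v x) < 1 := Valued.toNormedField.norm_lt_one_iff
    rw [h2, h1, hx]
    exact WithZero.exp_lt_exp.2 (by norm_num)

/-- integrality goes up -/
theorem norm_up_le (w : FPl K) (x : k) (hx : ‖ic (w.under (𝓞 k)) x‖ ≤ 1) :
    ‖ic w (algebraMap k K x)‖ ≤ 1 := by
  obtain ⟨φ, hc, hφ⟩ := exists_up (k := k) w
  obtain ⟨p, hp, hp1⟩ := exists_small (w.under (𝓞 k))
  rw [← hφ]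
  exact norm_le_of_cont φ hc hp hp1 hx

theorem poly_up {w : FPl K} {G : k[X]} (h : Int (w.under (𝓞 k)) G) (i : ℕ) :
    ‖(G.map ((ic w).comp (algebraMap k K))).coeff i‖ ≤ 1 := by
  rw [coeff_map]
  exact norm_up_le w _ (h i)

/-- norm one goes up -/
theorem norm_up_one (w : FPl K) (x : k) (hx : ‖ic (w.under (𝓞 k)) x‖ = 1) :
    ‖ic w (algebraMap k K x)‖ = 1 := by
  apply le_antisymm (norm_up_le w x hx.le)
  have h1 : ‖ic (w.under (𝓞 k)) x⁻¹‖ ≤ 1 := by
    rw [map_inv₀, norm_inv, hx, inv_one]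
  have h2 := norm_up_le w x⁻¹ h1
  have h0 : 0 < ‖ic w (algebraMap k K x)‖ := by
    rw [norm_pos_iff]
    apply (map_ne_zero (ic w)).2
    apply (map_ne_zero (algebraMap k K)).2
    intro h
    rw [h, map_zero, norm_zero] at hx
    exact zero_ne_one hx
  rw [map_inv₀, map_inv₀, norm_inv] at h2
  exact (inv_le_one₀ h0).1 h2

end up

end Pool.Agent.H34.N6
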