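import Pool.Agent.H34.N6.Main

/-!
# Two quadrics in `ℙ⁶`: simplified interface of the blocks F1 and F2

`T_PLO` replaces `T_PL`, `T_F2S` replaces `T_F2`, `T_LV` is not needed.
-/

set_option autoImplicit false

open Polynomial NumberField IsDedekindDomain Matrix Pool.Agent.H32.QC

namespace Pool.Agent.H34.N6

/-- local frames with irreducible quartic: every frame whose first three vectors are close to
`p 0`, `p 1`, `p 2` is good (block F1, helper70) -/
def T_PLO : Prop := ∀ (F : Type) [NontriviallyNormedField F] [IsUltrametricDist F] [ProperSpace F]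
  [CharZero F] (P D : F[X]), P.Monic → P.natDegree = 7 → P.Separable →
  IsCoprime P D → SqMod P D → ∀ t : F, eval t P ≠ 0 →
  ∃ (p : Fin 3 → Fin 7 → F) (ε : ℝ), 0 < ε ∧ LinearIndependent F p ∧
    (∀ i j, p i ⬝ᵥ (ft P D t *ᵥ p j) = 0) ∧
    ∀ (B : Matrix (Fin 7) (Fin 7) F) (d : F), d ≠ 0 → Bᵀ * ft P D t * B = JJ d →
      (∀ (i : Fin 3) (j : Fin 7), ‖B j ⟨i, by omega⟩ - p i j‖ < ε) →
      Irreducible (quart (Bᵀ * gA P D 0 * B) d) ∧ (quart (Bᵀ * gA P D 0 * B) d).natDegree = 4 ∧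
        (blk (Bᵀ * gA P D 0 * B)).det ≠ 0 ∧ TI (blk (Bᵀ * gA P D 0 * B)) 1

/-- the point of odd degree (block F2, helper18) -/
def T_F2S : Prop := ∀ (K : Type) [Field K] [NumberField K] (P D : K[X]), P.Monic →
  P.natDegree = 7 → P.Separable → IsCoprime P D → ∀ θ : K, eval θ P ≠ 0 → TI (ft P D θ) 3 →
  LocCZ (gA P D 0) (gA P D 1) →
  (∃ w : FPl K, SqMod (P.map (ic w)) (D.map (ic w))) →
  ∃ (K' : Type) (_ : Field K') (_ : NumberField K') (_ : Algebra K K'),
    Odd (Module.finrank K K') ∧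
      CZ ((gA P D 0).map (algebraMap K K')) ((gA P D 1).map (algebraMap K K'))

/-- a rational prime which splits completely (block E, helper13) -/
def T_SPP : Prop := ∀ (k : Type) [Field k] [NumberField k] (P D : k[X]), Irreducible P →
  ¬ P ∣ D → ∀ n : ℕ, ∃ p : ℕ, p.Prime ∧ n < p ∧ ∀ (K : Type) [Field K] [NumberField K]
    [Algebra k K] (w : FPl K), ((p : ℕ) : 𝓞 K) ∈ w.asIdeal →
    (P.map ((ic w).comp (algebraMap k K))).Splits ∧
    ∀ e : w.adicCompletion K, eval₂ ((ic w).comp (algebraMap k K)) e P = 0 →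
      IsSquare (eval₂ ((ic w).comp (algebraMap k K)) e D)

end Pool.Agent.H34.N6
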