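import Pool.Agent.H34.N6.LibC
import Pool.Agent.H34.N6.Main2
import Pool.Agent.H32.QC.TargetsL
import Pool.Agent.H32.SAB.Targets

/-!
# Two quadrics in `ℙ⁶`: the assembly
-/

set_option autoImplicit false

open Polynomial NumberField IsDedekindDomain Matrix Pool.Agent.H32.QC

namespace Pool.Agent.H34.N6

section conv

variable {F : Type*} [Field F]

theorem qv_eq {n : ℕ} (A : Matrix (Fin n) (Fin n) F) (x : Fin n → F) :
    Pool.Agent.H32.SAB.qv A x = x ⬝ᵥ (A *ᵥ x) := by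
  unfold Pool.Agent.H32.SAB.qv dotProduct Matrix.mulVec dotProduct
  apply Finset.sum_congr rfl
  intro i _
  rw [Finset.mul_sum]
  apply Finset.sum_congr rfl
  intro j _
  ring

theorem isoP_iff {n : ℕ} {R : Type} [Field R] {S : Type} [Field S] [Algebra R S]
    (A B : Matrix (Fin n) (Fin n) R) :
    Pool.Agent.H32.SAB.IsoP A B S ↔ CZ (A.map (algebraMap R S)) (B.map (algebraMap R S)) := by
  unfold Pool.Agent.H32.SAB.IsoP CZ
  constructor
  · rintro ⟨x, hx, h1, h2⟩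
    rw [qv_eq] at h1 h2
    exact ⟨x, hx, h1, h2⟩
  · rintro ⟨x, hx, h1, h2⟩
    refine ⟨x, hx, ?_, ?_⟩
    · rw [qv_eq]
      exact h1
    · rw [qv_eq]
      exact h2

end conv

section places

variable {k K : Type} [Field k] [NumberField k] [Field K] [NumberField K] [Algebra k K]

theorem splitAt_iff {P : k[X]} (hP : P.Monic) (D : k[X]) (w : Pl K) (θ : K) :
    SplitAt P D K w θ ↔ AtPl w fun _ _ ι =>
      TI ((ft (P.map (algebraMap k K)) (D.map (algebraMap k K)) θ).map ι) 3 := by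
  have key : ∀ (F : Type) [Field F] (ι : K →+* F),
      (ft (P.map (algebraMap k K)) (D.map (algebraMap k K)) θ).map ι =
        ft (P.map (ι.comp (algebraMap k K))) (D.map (ι.comp (algebraMap k K))) (ι θ) := by
    intro F _ ι
    rw [← ft_map (hP.map _), Polynomial.map_map, Polynomial.map_map]
  cases w with
  | inl w =>
    show TI _ 3 ↔ TI _ 3
    rw [key]
  | inr φ =>
    show TI _ 3 ↔ TI _ 3
    rw [key]

theorem eval_ic (P : k[X]) (w : FPl K) (θ : K) :
    eval (ic w θ) (P.map ((ic w).comp (algebraMap k K))) = ic w (aeval θ P) := by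
  rw [eval_map, aeval_def, Polynomial.hom_eval₂]

/-- data for the good places -/
structure GoodF {F : Type} [NormedField F] (P D : F[X]) : Prop where
  two : ‖(2 : F)‖ = 1
  mon : P.Monic
  deg : P.natDegree = 7
  intP : ∀ i, ‖P.coeff i‖ ≤ 1
  intD : ∀ i, ‖D.coeff i‖ ≤ 1
  sep : ∃ a b : F[X], (∀ i, ‖a.coeff i‖ ≤ 1) ∧ (∀ i, ‖b.coeff i‖ ≤ 1) ∧
    a * P + b * derivative P = 1
  cop : ∃ a b : F[X], (∀ i, ‖a.coeff i‖ ≤ 1) ∧ (∀ i, ‖b.coeff i‖ ≤ 1) ∧ a * P + b * D = 1
  sq : IsSquare (-(gA P D 0).det)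

theorem goodF {P D : k[X]} (hP : P.Monic) (h7 : P.natDegree = 7)
    (hsq : IsSquare (-(gA P D 0).det)) (w : FPl K) (hg : GoodAt P D (w.under (𝓞 k))) :
    GoodF (P.map ((ic w).comp (algebraMap k K))) (D.map ((ic w).comp (algebraMap k K))) := by
  set ι := (ic w).comp (algebraMap k K) with hι
  refine ⟨?_, hP.map _, ?_, poly_up hg.intP, poly_up hg.intD, ?_, ?_, ?_⟩
  · have h1 := norm_up_one w 2 hg.two
    rw [map_ofNat, map_ofNat] at h1
    exact h1
  · rw [hP.natDegree_map, h7]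
  · obtain ⟨a, b, ha, hb, hab⟩ := hg.sep
    refine ⟨a.map ι, b.map ι, poly_up ha, poly_up hb, ?_⟩
    rw [Polynomial.derivative_map, ← Polynomial.map_mul, ← Polynomial.map_mul,
      ← Polynomial.map_add, hab, Polynomial.map_one]
  · obtain ⟨a, b, ha, hb, hab⟩ := hg.cop
    refine ⟨a.map ι, b.map ι, poly_up ha, poly_up hb, ?_⟩
    rw [← Polynomial.map_mul, ← Polynomial.map_mul, ← Polynomial.map_add, hab,
      Polynomial.map_one]
  · rw [gA_map hP]
    obtain ⟨r, hr⟩ := hsq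
    refine ⟨ι r, ?_⟩
    have h1 : ((gA P D 0).map ι).det = ι (gA P D 0).det := (RingHom.map_det ι _).symm
    rw [h1, ← map_neg, hr, map_mul]

theorem gb1_apply (hADC : T_ADC) (hGB1 : T_GB1) {P D : k[X]} (hP : P.Monic)
    (h7 : P.natDegree = 7) (hsq : IsSquare (-(gA P D 0).det)) (w : FPl K) (θ : K)
    (hg : GoodAt P D (w.under (𝓞 k))) (hθ : ‖ic w θ‖ ≤ 1) (hne : aeval θ P ≠ 0)
    (h : ∀ e : w.adicCompletion K, eval₂ ((ic w).comp (algebraMap k K)) e P = 0 →
      ‖e - ic w θ‖ < 1 → IsSquare (eval₂ ((ic w).comp (algebraMap k K)) e D)) :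
    SplitAt P D K (Sum.inl w) θ := by
  have hF := goodF hP h7 hsq w hg
  obtain ⟨hp, hc, x, hx⟩ := hADC K w
  letI nn : NontriviallyNormedField (w.adicCompletion K) :=
    { (inferInstance : NormedField (w.adicCompletion K)) with non_trivial := ⟨x, hx⟩ }
  have hne' : eval (ic w θ) (P.map ((ic w).comp (algebraMap k K))) ≠ 0 := by
    rw [eval_ic]
    exact (map_ne_zero (ic w)).2 hne
  have h' : ∀ e : w.adicCompletion K, eval e (P.map ((ic w).comp (algebraMap k K))) = 0 →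
      ‖e - ic w θ‖ < 1 → IsSquare (eval e (D.map ((ic w).comp (algebraMap k K)))) := by
    intro e h1 h2
    rw [eval_map] at h1 ⊢
    exact h e h1 h2
  exact hGB1 (w.adicCompletion K) _ _ _ hF.two hF.mon hF.deg hF.intP hF.intD hF.sep hF.cop hF.sq
    hθ hne' h'

theorem gb2_apply (hADC : T_ADC) (hGB2 : T_GB2) {P D : k[X]} (hP : P.Monic)
    (h7 : P.natDegree = 7) (hsq : IsSquare (-(gA P D 0).det)) (w : FPl K) (θ : K)
    (hg : GoodAt P D (w.under (𝓞 k))) (hθ : ‖ic w θ‖ ≤ 1) (hne : aeval θ P ≠ 0)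
    (h : ∃ e : w.adicCompletion K, eval₂ ((ic w).comp (algebraMap k K)) e P = 0 ∧
      ‖e - ic w θ‖ < 1 ∧ (∀ x : w.adicCompletion K, ‖x‖ < 1 → ‖x‖ ≤ ‖e - ic w θ‖) ∧
      ¬ IsSquare (eval₂ ((ic w).comp (algebraMap k K)) e D)) :
    ¬ SplitAt P D K (Sum.inl w) θ := by
  have hF := goodF hP h7 hsq w hg
  obtain ⟨hp, hc, x, hx⟩ := hADC K w
  letI nn : NontriviallyNormedField (w.adicCompletion K) :=
    { (inferInstance : NormedField (w.adicCompletion K)) with non_trivial := ⟨x, hx⟩ }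
  have hne' : eval (ic w θ) (P.map ((ic w).comp (algebraMap k K))) ≠ 0 := by
    rw [eval_ic]
    exact (map_ne_zero (ic w)).2 hne
  have h' : ∃ e : w.adicCompletion K, eval e (P.map ((ic w).comp (algebraMap k K))) = 0 ∧
      ‖e - ic w θ‖ < 1 ∧ (∀ x : w.adicCompletion K, ‖x‖ < 1 → ‖x‖ ≤ ‖e - ic w θ‖) ∧
      ¬ IsSquare (eval e (D.map ((ic w).comp (algebraMap k K)))) := by
    obtain ⟨e, h1, h2, h3, h4⟩ := h
    refine ⟨e, ?_, h2, h3, ?_⟩
    · rw [eval_map]
      exact h1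
    · rw [eval_map]
      exact h4
  exact hGB2 (w.adicCompletion K) _ _ _ hF.two hF.mon hF.deg hF.intP hF.intD hF.sep hF.cop hF.sq
    hθ hne' h'

theorem split_of_sq {P D : k[X]} (hP : P.Monic) (h7 : P.natDegree = 7) (hsep : P.Separable)
    (hD : IsCoprime P D) (w : FPl K) (θ : K)
    (h1 : (P.map ((ic w).comp (algebraMap k K))).Splits)
    (h2 : ∀ e : w.adicCompletion K, eval₂ ((ic w).comp (algebraMap k K)) e P = 0 →
      IsSquare (eval₂ ((ic w).comp (algebraMap k K)) e D)) :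
    SqMod (P.map ((ic w).comp (algebraMap k K))) (D.map ((ic w).comp (algebraMap k K))) ∧
      SplitAt P D K (Sum.inl w) θ := by
  have h3 : SqMod (P.map ((ic w).comp (algebraMap k K)))
      (D.map ((ic w).comp (algebraMap k K))) := by
    apply sqMod_of_roots h1 hsep.map
    intro e he
    rw [eval_map] at he ⊢
    exact h2 e he
  refine ⟨h3, ?_⟩
  have h4 := pf_SQ3 (w.adicCompletion K) (P.map ((ic w).comp (algebraMap k K)))
    (D.map ((ic w).comp (algebraMap k K))) (ic w θ) (hP.map _) (by rw [hP.natDegree_map, h7])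
    (hD.map (Polynomial.mapRingHom ((ic w).comp (algebraMap k K)))) h3
  exact h4

/-- condition (A) of the device -/
theorem all_but_one (hSPL : T_SPL) {P D : k[X]} (hP : P.Monic) (h7 : P.natDegree = 7)
    (hD : IsCoprime P D) (θ : K) (w₀ : FPl K) (hne : aeval θ P ≠ 0)
    (h : ∀ w : Pl K, w ≠ Sum.inl w₀ → SplitAt P D K w θ) :
    TI (ft (P.map (algebraMap k K)) (D.map (algebraMap k K)) θ) 3 ∧
      ∀ w : Pl K, SplitAt P D K w θ := by
  have h1 : TI (ft (P.map (algebraMap k K)) (D.map (algebraMap k K)) θ) 3 := by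
    apply hSPL K _ w₀ (ft_symm _ _ _)
    · apply ft_det_ne (hP.map _) (by rw [hP.natDegree_map, h7])
        (hD.map (Polynomial.mapRingHom (algebraMap k K)))
      rw [eval_map, ← aeval_def]
      exact hne
    · intro w hw
      exact (splitAt_iff hP D w θ).1 (h w hw)
  refine ⟨h1, ?_⟩
  intro w
  rw [splitAt_iff hP]
  cases w with
  | inl w => exact h1.map (ic w)
  | inr φ => exact h1.map φ

theorem exists_place (p : ℕ) (hp : p.Prime) : ∃ w : FPl K, ((p : ℕ) : 𝓞 K) ∈ w.asIdeal := by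
  have h1 : Ideal.span {((p : ℕ) : 𝓞 K)} ≠ ⊤ := by
    rw [Ne, Ideal.span_singleton_eq_top]
    intro h
    have h2 := h.map (Algebra.norm ℤ : 𝓞 K →* ℤ)
    rw [Int.isUnit_iff] at h2
    have h3 : Algebra.norm ℤ ((p : ℕ) : 𝓞 K) = (p : ℤ) ^ Module.finrank ℤ (𝓞 K) := by
      have h4 := Algebra.norm_algebraMap (S := 𝓞 K) (p : ℤ)
      rw [map_natCast] at h4
      exact h4
    rw [h3] at h2
    have h5 : 1 < (p : ℤ) := by exact_mod_cast hp.one_lt
    have h6 : Module.finrank ℤ (𝓞 K) ≠ 0 := by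
      rw [NumberField.RingOfIntegers.rank]
      exact Module.finrank_pos.ne'
    have h7 := one_lt_pow₀ h5 h6
    rcases h2 with h2 | h2 <;> omega
  obtain ⟨M, hM, hle⟩ := Ideal.exists_le_maximal _ h1
  have h2 : ((p : ℕ) : 𝓞 K) ∈ M := hle (Ideal.mem_span_singleton_self _)
  refine ⟨⟨M, hM.isPrime, ?_⟩, h2⟩
  rintro rfl
  rw [Ideal.mem_bot] at h2
  exact (Nat.cast_ne_zero.2 hp.ne_zero) h2

end places

end Pool.Agent.H34.N6
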