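import Pool.Agent.H34.N6.Main

/-!
# Two quadrics in `ℙ⁶`: basic lemmas on the model
-/

set_option autoImplicit false

open Polynomial NumberField IsDedekindDomain Matrix Pool.Agent.H32.QC

namespace Pool.Agent.H34.N6

section lam

variable {F : Type*} [Field F]

theorem lam_add (P g h : F[X]) : lam P (g + h) = lam P g + lam P h := by
  unfold lam
  rw [Polynomial.add_modByMonic, coeff_add]

theorem lam_zero (P : F[X]) : lam P 0 = 0 := by
  unfold lam
  simp

theorem lam_C_mul (P g : F[X]) (c : F) : lam P (C c * g) = c * lam P g := by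
  unfold lam
  rw [← smul_eq_C_mul, Polynomial.smul_modByMonic, coeff_smul, smul_eq_mul]

theorem lam_neg (P g : F[X]) : lam P (-g) = -lam P g := by
  have h := lam_C_mul P g (-1)
  rw [C_neg, C_1, neg_one_mul, neg_one_mul] at h
  exact h

theorem lam_sub (P g h : F[X]) : lam P (g - h) = lam P g - lam P h := by
  rw [sub_eq_add_neg, lam_add, lam_neg, sub_eq_add_neg]

theorem lam_sum {ι : Type*} (s : Finset ι) (P : F[X]) (g : ι → F[X]) :
    lam P (∑ i ∈ s, g i) = ∑ i ∈ s, lam P (g i) := by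
  classical
  induction s using Finset.induction_on with
  | empty => simp [lam_zero]
  | insert a s ha ih => rw [Finset.sum_insert ha, Finset.sum_insert ha, lam_add, ih]

theorem lam_dvd {P : F[X]} (hP : P.Monic) {g : F[X]} (h : P ∣ g) : lam P g = 0 := by
  unfold lam
  rw [(Polynomial.modByMonic_eq_zero_iff_dvd hP).2 h, coeff_zero]

theorem lam_congr {P : F[X]} (hP : P.Monic) {g h : F[X]} (h1 : P ∣ g - h) :
    lam P g = lam P h := by
  have h2 := lam_dvd hP h1
  rw [lam_sub] at h2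
  exact sub_eq_zero.1 h2

/-- polynomials of degree below that of `P` -/
theorem lam_of_lt {P : F[X]} (hP : P.Monic) {g : F[X]} (h : g.degree < P.degree) :
    lam P g = g.coeff (P.natDegree - 1) := by
  unfold lam
  rw [(Polynomial.modByMonic_eq_self_iff hP).2 h]

theorem lam_eq_zero {P : F[X]} (hP : P.Monic) {g : F[X]} (h : g.natDegree < P.natDegree - 1) :
    lam P g = 0 := by
  rw [lam_of_lt hP, Polynomial.coeff_eq_zero_of_natDegree_lt h]
  exact Polynomial.degree_lt_degree (by omega)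

theorem lam_X_pow {P : F[X]} (hP : P.Monic) {n : ℕ} (h : n < P.natDegree - 1) :
    lam P (X ^ n) = 0 := by
  apply lam_eq_zero hP
  rw [natDegree_X_pow]
  exact h

theorem lam_X_pow_self {P : F[X]} (hP : P.Monic) (h : 0 < P.natDegree) :
    lam P (X ^ (P.natDegree - 1)) = 1 := by
  rw [lam_of_lt hP, coeff_X_pow_self]
  apply Polynomial.degree_lt_degree
  rw [natDegree_X_pow]
  omega

theorem lam_map {E : Type*} [Field E] {P : F[X]} (hP : P.Monic) (g : F[X]) (ι : F →+* E) :
    lam (P.map ι) (g.map ι) = ι (lam P g) := by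
  unfold lam
  rw [← Polynomial.map_modByMonic ι hP, coeff_map, Polynomial.natDegree_map]

end lam

section gram

variable {F : Type*} [Field F]

theorem gA_map {E : Type*} [Field E] {P : F[X]} (hP : P.Monic) (D : F[X]) (s : ℕ) (ι : F →+* E) :
    gA (P.map ι) (D.map ι) s = (gA P D s).map ι := by
  ext i j
  rw [Matrix.map_apply]
  unfold gA
  rw [← lam_map hP, Polynomial.map_mul, Polynomial.map_pow, map_X]

theorem ft_map {E : Type*} [Field E] {P : F[X]} (hP : P.Monic) (D : F[X]) (t : F) (ι : F →+* E) :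
    ft (P.map ι) (D.map ι) (ι t) = (ft P D t).map ι := by
  unfold ft
  rw [gA_map hP, gA_map hP]
  ext i j
  simp

theorem gA_symm (P D : F[X]) (s : ℕ) : (gA P D s).IsSymm := by
  ext i j
  rw [Matrix.transpose_apply]
  unfold gA
  rw [Nat.add_comm (j : ℕ) (i : ℕ)]

theorem ft_symm (P D : F[X]) (t : F) : (ft P D t).IsSymm := by
  unfold ft
  exact (gA_symm P D 1).sub ((gA_symm P D 0).smul t)

/-- the polynomial with given coefficients -/
noncomputable def pol (x : Fin 7 → F) : F[X] := ∑ i, C (x i) * X ^ (i : ℕ)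

theorem pol_add (x y : Fin 7 → F) : pol (x + y) = pol x + pol y := by
  unfold pol
  rw [← Finset.sum_add_distrib]
  apply Finset.sum_congr rfl
  intro i _
  rw [Pi.add_apply, C_add, add_mul]

theorem pol_smul (c : F) (x : Fin 7 → F) : pol (c • x) = C c * pol x := by
  unfold pol
  rw [Finset.mul_sum]
  apply Finset.sum_congr rfl
  intro i _
  rw [Pi.smul_apply, smul_eq_mul, C_mul, mul_assoc]

/-- `pol` as a linear map -/
noncomputable def polL : (Fin 7 → F) →ₗ[F] F[X] where
  toFun := pol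
  map_add' := pol_add
  map_smul' c x := by rw [pol_smul, RingHom.id_apply, smul_eq_C_mul]

theorem coeff_pol (x : Fin 7 → F) (i : Fin 7) : (pol x).coeff i = x i := by
  unfold pol
  rw [finsetSum_coeff, Finset.sum_eq_single i]
  · rw [coeff_C_mul_X_pow, if_pos rfl]
  · intro j _ hj
    rw [coeff_C_mul_X_pow, if_neg]
    intro h
    exact hj (Fin.ext h.symm)
  · intro h
    exact absurd (Finset.mem_univ i) h

theorem natDegree_pol (x : Fin 7 → F) : (pol x).natDegree ≤ 6 := by
  unfold pol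
  apply Polynomial.natDegree_sum_le_of_forall_le
  intro i _
  exact (natDegree_C_mul_X_pow_le _ _).trans (by omega)

theorem pol_injective : Function.Injective (pol : (Fin 7 → F) → F[X]) := by
  intro x y h
  ext i
  rw [← coeff_pol x i, ← coeff_pol y i, h]

theorem pol_eq_zero {x : Fin 7 → F} : pol x = 0 ↔ x = 0 := by
  constructor
  · intro h
    apply pol_injective
    rw [h]
    unfold pol
    simp
  · intro h
    rw [h]
    unfold pol
    simp

/-- the coefficients of a polynomial -/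
def cf (g : F[X]) : Fin 7 → F := fun i => g.coeff i

theorem pol_cf {g : F[X]} (h : g.natDegree ≤ 6) : pol (cf g) = g := by
  ext n
  by_cases hn : n ≤ 6
  · have h1 := coeff_pol (cf g) ⟨n, by omega⟩
    exact h1
  · rw [Polynomial.coeff_eq_zero_of_natDegree_lt (by have := natDegree_pol (cf g); omega),
      Polynomial.coeff_eq_zero_of_natDegree_lt (by omega)]

theorem linIndep_pol {r : ℕ} {b : Fin r → Fin 7 → F} :
    LinearIndependent F b ↔ LinearIndependent F (fun i => pol (b i)) := by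
  have h := LinearMap.linearIndependent_iff (polL : (Fin 7 → F) →ₗ[F] F[X]) (v := b)
    (LinearMap.ker_eq_bot.2 pol_injective)
  exact h.symm

theorem gA_bilin (P D : F[X]) (s : ℕ) (x y : Fin 7 → F) :
    x ⬝ᵥ (gA P D s *ᵥ y) = lam P (D * X ^ s * pol x * pol y) := by
  have h1 : D * X ^ s * pol x * pol y =
      ∑ i, ∑ j, C (x i) * (C (y j) * (D * X ^ ((i : ℕ) + (j : ℕ) + s))) := by
    unfold pol
    rw [mul_assoc, Finset.sum_mul_sum, Finset.mul_sum]
    apply Finset.sum_congr rfl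
    intro i _
    rw [Finset.mul_sum]
    apply Finset.sum_congr rfl
    intro j _
    ring
  rw [h1, lam_sum]
  unfold dotProduct Matrix.mulVec dotProduct gA
  apply Finset.sum_congr rfl
  intro i _
  rw [lam_sum, Finset.mul_sum]
  apply Finset.sum_congr rfl
  intro j _
  rw [lam_C_mul, lam_C_mul]
  ring

theorem ft_bilin (P D : F[X]) (t : F) (x y : Fin 7 → F) :
    x ⬝ᵥ (ft P D t *ᵥ y) = lam P (D * (X - C t) * pol x * pol y) := by
  unfold ft
  rw [Matrix.sub_mulVec, dotProduct_sub, Matrix.smul_mulVec, dotProduct_smul, gA_bilin, gA_bilin,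
    smul_eq_mul, ← lam_C_mul, ← lam_sub]
  congr 1
  ring

end gram

section maps

variable {F E : Type*} [Field F] [Field E]

theorem linIndep_map {n r : ℕ} {b : Fin r → Fin n → F} (h : LinearIndependent F b) (ι : F →+* E) :
    LinearIndependent E (fun i => ι ∘ b i) := by
  let := ι.toAlgebra
  exact linearIndependent_algebraMap_comp_iff.2 h

theorem TI.map {n r : ℕ} {A : Matrix (Fin n) (Fin n) F} (h : TI A r) (ι : F →+* E) :
    TI (A.map ι) r := by
  obtain ⟨b, hb, h0⟩ := h
  refine ⟨fun i => ι ∘ b i, linIndep_map hb ι, ?_⟩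
  intro i j
  have h1 := congrArg ι (h0 i j)
  rw [map_zero] at h1
  rw [← h1]
  simp [dotProduct, Matrix.mulVec, map_sum, map_mul]

theorem CZ.map {n : ℕ} {A B : Matrix (Fin n) (Fin n) F} (h : CZ A B) (ι : F →+* E) :
    CZ (A.map ι) (B.map ι) := by
  obtain ⟨x, hx, h1, h2⟩ := h
  refine ⟨ι ∘ x, ?_, ?_, ?_⟩
  · intro h3
    apply hx
    ext i
    have h4 := congrFun h3 i
    rw [Function.comp_apply, Pi.zero_apply, map_eq_zero] at h4
    exact h4
  · have h3 := congrArg ι h1
    rw [map_zero] at h3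
    rw [← h3]
    simp [dotProduct, Matrix.mulVec, map_sum, map_mul]
  · have h3 := congrArg ι h2
    rw [map_zero] at h3
    rw [← h3]
    simp [dotProduct, Matrix.mulVec, map_sum, map_mul]

end maps

section modP

variable {F : Type*} [Field F]

/-- the remainder modulo `P` -/
theorem exists_rem {P : F[X]} (hP : P.Monic) (h7 : P.natDegree = 7) (g : F[X]) :
    ∃ h : F[X], h.natDegree ≤ 6 ∧ P ∣ g - h := by
  refine ⟨g %ₘ P, ?_, ?_⟩
  · have h1 := Polynomial.natDegree_modByMonic_lt g hP (by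
      intro h
      rw [h, natDegree_one] at h7
      omega)
    omega
  · refine ⟨g /ₘ P, ?_⟩
    have h1 := Polynomial.modByMonic_add_div g P
    rw [sub_eq_iff_eq_add, add_comm]
    exact h1.symm

/-- inverses modulo `P` -/
theorem exists_inv {P : F[X]} (hP : P.Monic) (h7 : P.natDegree = 7) {D : F[X]}
    (h : IsCoprime P D) : ∃ E : F[X], E.natDegree ≤ 6 ∧ P ∣ D * E - 1 := by
  obtain ⟨a, b, hab⟩ := h
  obtain ⟨E, hE, h1⟩ := exists_rem hP h7 b
  refine ⟨E, hE, ?_⟩
  have h2 : D * E - 1 = -(a * P) - D * (b - E) := by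
    rw [← hab]
    ring
  rw [h2]
  exact dvd_sub (dvd_neg.2 (dvd_mul_left P a)) (h1.mul_left D)

theorem coprime_of_sq {P D s : F[X]} (h : IsCoprime P D) (hs : P ∣ D - s ^ 2) :
    IsCoprime P s := by
  obtain ⟨a, b, hab⟩ := h
  obtain ⟨c, hc⟩ := hs
  refine ⟨a + b * c, b * s, ?_⟩
  rw [← hab]
  have : D = P * c + s ^ 2 := by
    rw [← hc]
    ring
  rw [this]
  ring

/-- if `D = s²` modulo `P` the vectors with `s h = 1, X, X²` span an isotropic subspace -/
theorem sq_vectors {P D s : F[X]} (hP : P.Monic) (h7 : P.natDegree = 7) (h : IsCoprime P D)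
    (hs : P ∣ D - s ^ 2) :
    ∃ b : Fin 3 → Fin 7 → F, LinearIndependent F b ∧ ∀ i, P ∣ s * pol (b i) - X ^ (i : ℕ) := by
  obtain ⟨E, -, h1⟩ := exists_inv hP h7 (coprime_of_sq h hs)
  have h2 : ∀ i : Fin 3, ∃ x : Fin 7 → F, P ∣ E * X ^ (i : ℕ) - pol x := by
    intro i
    obtain ⟨g, hg, h3⟩ := exists_rem hP h7 (E * X ^ (i : ℕ))
    exact ⟨cf g, by rw [pol_cf hg]; exact h3⟩
  choose b hb using h2
  have h3 : ∀ i : Fin 3, P ∣ s * pol (b i) - X ^ (i : ℕ) := by
    intro i
    have h4 : s * pol (b i) - X ^ (i : ℕ) =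
        X ^ (i : ℕ) * (s * E - 1) - s * (E * X ^ (i : ℕ) - pol (b i)) := by ring
    rw [h4]
    exact dvd_sub (h1.mul_left _) ((hb i).mul_left _)
  refine ⟨b, ?_, h3⟩
  rw [Fintype.linearIndependent_iff]
  intro c hc i
  have h5 : P ∣ ∑ i : Fin 3, C (c i) * X ^ (i : ℕ) := by
    have h6 : ∑ i : Fin 3, C (c i) * X ^ (i : ℕ) =
        s * pol (∑ i, c i • b i) - ∑ i : Fin 3, C (c i) * (s * pol (b i) - X ^ (i : ℕ)) := by
      have h7 : pol (∑ i, c i • b i) = ∑ i, C (c i) * pol (b i) := by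
        have h8 := map_sum (polL : (Fin 7 → F) →ₗ[F] F[X]) (fun i => c i • b i) Finset.univ
        refine h8.trans ?_
        apply Finset.sum_congr rfl
        intro i _
        exact pol_smul _ _
      rw [h7, Finset.mul_sum, ← Finset.sum_sub_distrib]
      apply Finset.sum_congr rfl
      intro i _
      ring
    rw [h6, hc]
    have h9 : pol (0 : Fin 7 → F) = 0 := pol_eq_zero.2 rfl
    rw [h9, mul_zero, zero_sub]
    exact dvd_neg.2 (Finset.dvd_sum fun i _ => (h3 i).mul_left _)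
  have h6 : ∑ i : Fin 3, C (c i) * X ^ (i : ℕ) = 0 := by
    by_contra h7'
    have h8 := Polynomial.natDegree_le_of_dvd h5 h7'
    have h9 : (∑ i : Fin 3, C (c i) * X ^ (i : ℕ)).natDegree ≤ 2 := by
      apply Polynomial.natDegree_sum_le_of_forall_le
      intro i _
      exact (natDegree_C_mul_X_pow_le _ _).trans (by omega)
    omega
  have h7 := congrArg (fun g : F[X] => g.coeff (i : ℕ)) h6
  simp only [finsetSum_coeff, coeff_zero, coeff_C_mul_X_pow] at h7
  rw [Finset.sum_eq_single i] at h7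
  · rw [if_pos rfl] at h7
    exact h7
  · intro j _ hj
    rw [if_neg]
    intro h
    exact hj (Fin.ext h.symm)
  · intro h
    exact absurd (Finset.mem_univ i) h

theorem pf_SQ3 : T_SQ3 := by
  intro F _ P D t hP h7 hD hsq
  obtain ⟨s, hs⟩ := hsq
  obtain ⟨b, hb, h⟩ := sq_vectors hP h7 hD hs
  refine ⟨b, hb, ?_⟩
  intro i j
  rw [ft_bilin]
  have h1 : lam P (D * (X - C t) * pol (b i) * pol (b j)) =
      lam P ((X - C t) * X ^ (i : ℕ) * X ^ (j : ℕ)) := by
    apply lam_congr hP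
    obtain ⟨u, hu⟩ := hs
    obtain ⟨v, hv⟩ := h i
    obtain ⟨w, hw⟩ := h j
    have e1 : D = P * u + s ^ 2 := by rw [← hu]; ring
    have e2 : s * pol (b i) = P * v + X ^ (i : ℕ) := by rw [← hv]; ring
    have e3 : s * pol (b j) = P * w + X ^ (j : ℕ) := by rw [← hw]; ring
    have e4 : D * (X - C t) * pol (b i) * pol (b j) =
        P * u * (X - C t) * pol (b i) * pol (b j) +
          (X - C t) * (s * pol (b i)) * (s * pol (b j)) := by
      rw [e1]
      ring
    rw [e4, e2, e3]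
    refine ⟨u * (X - C t) * pol (b i) * pol (b j) + (X - C t) * (v * (P * w + X ^ (j : ℕ)) +
      X ^ (i : ℕ) * w), ?_⟩
    ring
  rw [h1]
  apply lam_eq_zero hP
  have h2 : (i : ℕ) < 3 := i.2
  have h3 : (j : ℕ) < 3 := j.2
  have h4 : ((X - C t) * X ^ (i : ℕ) * X ^ (j : ℕ)).natDegree ≤ 5 := by
    refine (natDegree_mul_le).trans ?_
    have h5 : ((X - C t) * X ^ (i : ℕ)).natDegree ≤ 1 + (i : ℕ) := by
      refine (natDegree_mul_le).trans ?_
      rw [natDegree_X_sub_C, natDegree_X_pow]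
    rw [natDegree_X_pow]
    omega
  omega

theorem pf_SQZ : T_SQZ := by
  intro F _ P D hP h7 hD hsq
  obtain ⟨s, hs⟩ := hsq
  obtain ⟨b, hb, h⟩ := sq_vectors hP h7 hD hs
  have key : ∀ m : ℕ, m ≤ 1 → lam P (D * X ^ m * pol (b 0) * pol (b 0)) = 0 := by
    intro m hm
    have h1 : lam P (D * X ^ m * pol (b 0) * pol (b 0)) = lam P (X ^ m) := by
      apply lam_congr hP
      obtain ⟨u, hu⟩ := hs
      obtain ⟨v, hv⟩ := h 0
      have e1 : D = P * u + s ^ 2 := by rw [← hu]; ring
      have e2 : s * pol (b 0) = P * v + 1 := by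
        have : (X : F[X]) ^ ((0 : Fin 3) : ℕ) = 1 := by simp
        rw [this] at hv
        rw [← hv]
        ring
      have e4 : D * X ^ m * pol (b 0) * pol (b 0) =
          P * u * X ^ m * pol (b 0) * pol (b 0) + X ^ m * (s * pol (b 0)) * (s * pol (b 0)) := by
        rw [e1]
        ring
      rw [e4, e2]
      refine ⟨u * X ^ m * pol (b 0) * pol (b 0) + X ^ m * (v * (P * v + 1) + v), ?_⟩
      ring
    rw [h1]
    apply lam_X_pow hP
    omega
  refine ⟨b 0, hb.ne_zero 0, ?_, ?_⟩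
  · rw [gA_bilin]
    exact key 0 (by omega)
  · rw [gA_bilin]
    exact key 1 (by omega)

theorem mod_mul_eq {P : F[X]} (hP : P.Monic) (h7 : P.natDegree = 7) (E : F[X]) :
    ∃ M : Matrix (Fin 7) (Fin 7) F, (∀ D : F[X], ∀ s, gA P (D * E) s = M * gA P D s) ∧
      M = (Matrix.of fun i : Fin 7 => cf ((E * X ^ (i : ℕ)) %ₘ P)) := by
  refine ⟨_, ?_, rfl⟩
  intro D s
  ext i j
  rw [Matrix.mul_apply]
  have h1 : D * E * X ^ ((i : ℕ) + (j : ℕ) + s) = D * X ^ ((j : ℕ) + s) * (E * X ^ (i : ℕ)) := by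
    ring
  have h2 : ((E * X ^ (i : ℕ)) %ₘ P).natDegree ≤ 6 := by
    have h3 := Polynomial.natDegree_modByMonic_lt (E * X ^ (i : ℕ)) hP (by
      intro h
      rw [h, natDegree_one] at h7
      omega)
    omega
  have h3 : P ∣ D * E * X ^ ((i : ℕ) + (j : ℕ) + s) -
      D * X ^ ((j : ℕ) + s) * pol (cf ((E * X ^ (i : ℕ)) %ₘ P)) := by
    rw [h1, pol_cf h2, ← mul_sub]
    apply Dvd.dvd.mul_left
    refine ⟨(E * X ^ (i : ℕ)) /ₘ P, ?_⟩
    have h4 := Polynomial.modByMonic_add_div (E * X ^ (i : ℕ)) P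
    rw [sub_eq_iff_eq_add, add_comm]
    exact h4.symm
  have h4 : gA P (D * E) s i j = lam P (D * E * X ^ ((i : ℕ) + (j : ℕ) + s)) := rfl
  rw [h4, lam_congr hP h3]
  unfold pol
  rw [Finset.mul_sum, lam_sum]
  apply Finset.sum_congr rfl
  intro m _
  have h5 : D * X ^ ((j : ℕ) + s) * (C (cf ((E * X ^ (i : ℕ)) %ₘ P) m) * X ^ (m : ℕ)) =
      C (cf ((E * X ^ (i : ℕ)) %ₘ P) m) * (D * X ^ ((m : ℕ) + (j : ℕ) + s)) := by ring
  rw [h5, lam_C_mul]
  rfl

end modP

end Pool.Agent.H34.N6
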