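import Pool.Agent.H34.N6.Lib

/-!
# Two quadrics in `ℙ⁶`: nondegeneracy, split primes
-/

set_option autoImplicit false

open Polynomial NumberField IsDedekindDomain Matrix Pool.Agent.H32.QC

namespace Pool.Agent.H34.N6

section nondeg

variable {F : Type*} [Field F]

/-- the functional `lam` is nondegenerate -/
theorem lam_nondeg {P : F[X]} (hP : P.Monic) (h7 : P.natDegree = 7) {g : F[X]}
    (h : ∀ j : Fin 7, lam P (g * X ^ (j : ℕ)) = 0) : P ∣ g := by
  obtain ⟨r, hr, h1⟩ := exists_rem hP h7 g
  have h2 : ∀ j : Fin 7, lam P (r * X ^ (j : ℕ)) = 0 := by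
    intro j
    rw [← h j]
    symm
    apply lam_congr hP
    rw [← sub_mul]
    exact h1.mul_right _
  have h3 : r = 0 := by
    by_contra hne
    have h4 := h2 ⟨6 - r.natDegree, by omega⟩
    have h5 : (r * X ^ (6 - r.natDegree)).natDegree = 6 := by
      rw [natDegree_mul hne (pow_ne_zero _ X_ne_zero), natDegree_X_pow]
      omega
    have h6 : lam P (r * X ^ (6 - r.natDegree)) = (r * X ^ (6 - r.natDegree)).coeff 6 := by
      rw [lam_of_lt hP, h7]
      apply Polynomial.degree_lt_degree
      omega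
    have h7' : (r * X ^ (6 - r.natDegree)).coeff 6 = r.leadingCoeff := by
      have h8 : (6 : ℕ) = r.natDegree + (6 - r.natDegree) := by omega
      have h9 : (r * X ^ (6 - r.natDegree)).coeff (r.natDegree + (6 - r.natDegree)) =
          r.coeff r.natDegree := coeff_mul_X_pow _ _ _
      rw [← h8] at h9
      exact h9
    rw [h6, h7'] at h4
    exact hne (leadingCoeff_eq_zero.1 h4)
  rw [h3, sub_zero] at h1
  exact h1

theorem pol_single (j : Fin 7) : pol (Pi.single j (1 : F)) = X ^ (j : ℕ) := by
  unfold pol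
  rw [Finset.sum_eq_single j]
  · rw [Pi.single_eq_same, C_1, one_mul]
  · intro i _ hi
    rw [Pi.single_eq_of_ne hi, C_0, zero_mul]
  · intro h
    exact absurd (Finset.mem_univ j) h

/-- `x` in the radical of `λ(E ..)` with `E` prime to `P` vanishes -/
theorem bil_nondeg {P : F[X]} (hP : P.Monic) (h7 : P.natDegree = 7) {E : F[X]}
    (hE : IsCoprime P E) {x : Fin 7 → F} (h : ∀ y, lam P (E * pol x * pol y) = 0) : x = 0 := by
  have h1 : P ∣ E * pol x := by
    apply lam_nondeg hP h7
    intro j
    have h2 := h (Pi.single j 1)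
    rw [pol_single] at h2
    exact h2
  have h2 : P ∣ pol x := hE.dvd_of_dvd_mul_left h1
  apply pol_eq_zero.1
  by_contra hne
  have h3 := Polynomial.natDegree_le_of_dvd h2 hne
  have h4 := natDegree_pol x
  omega

theorem det_ne_zero_of {n : ℕ} {A : Matrix (Fin n) (Fin n) F}
    (h : ∀ x : Fin n → F, (∀ y : Fin n → F, x ⬝ᵥ (A *ᵥ y) = 0) → x = 0) : A.det ≠ 0 := by
  intro h0
  obtain ⟨x, hx, h1⟩ := Matrix.exists_vecMul_eq_zero_iff.2 h0
  apply hx
  apply h x
  intro y
  rw [Matrix.dotProduct_mulVec, h1, zero_dotProduct]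

theorem gA_det_ne {P D : F[X]} (hP : P.Monic) (h7 : P.natDegree = 7) (hD : IsCoprime P D) :
    (gA P D 0).det ≠ 0 := by
  apply det_ne_zero_of
  intro x hx
  apply bil_nondeg hP h7 hD
  intro y
  have h1 := hx y
  rw [gA_bilin, pow_zero, mul_one] at h1
  exact h1

theorem coprime_X_sub {P : F[X]} {t : F} (h : eval t P ≠ 0) : IsCoprime P (X - C t) := by
  apply IsCoprime.symm
  rw [(Polynomial.irreducible_X_sub_C t).coprime_iff_not_dvd]
  intro h1
  exact h (Polynomial.dvd_iff_isRoot.1 h1)

theorem ft_det_ne {P D : F[X]} (hP : P.Monic) (h7 : P.natDegree = 7) (hD : IsCoprime P D) {t : F}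
    (ht : eval t P ≠ 0) : (ft P D t).det ≠ 0 := by
  apply det_ne_zero_of
  intro x hx
  apply bil_nondeg hP h7 (hD.mul_right (coprime_X_sub ht))
  intro y
  have h1 := hx y
  rw [ft_bilin] at h1
  exact h1

end nondeg

section split

variable {F : Type*} [Field F]

/-- if `P` splits and `D` is a square at all roots then `D` is a square modulo `P` -/
theorem sqMod_of_roots {P D : F[X]} (hs : P.Splits) (hsep : P.Separable)
    (h : ∀ e : F, eval e P = 0 → IsSquare (eval e D)) : SqMod P D := by
  classical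
  have h0 : P ≠ 0 := hsep.ne_zero
  have h1 : ∀ e : F, ∃ s : F, eval e P = 0 → eval e D = s * s := by
    intro e
    by_cases he : eval e P = 0
    · obtain ⟨s, hs⟩ := h e he
      exact ⟨s, fun _ => hs⟩
    · exact ⟨0, fun h => absurd h he⟩
  choose s hs' using h1
  let R : Finset F := P.roots.toFinset
  let g : F[X] := Lagrange.interpolate R (fun e => e) s
  have hg : ∀ e ∈ R, eval e g = s e := by
    intro e he
    exact Lagrange.eval_interpolate_at_node s (fun a _ b _ hab => hab) he
  refine ⟨g, ?_⟩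
  have h2 : P = C P.leadingCoeff * (P.roots.map fun a => X - C a).prod :=
    hs.eq_prod_roots
  have h3 : P.roots.Nodup := Polynomial.nodup_roots hsep
  have h4 : (P.roots.map fun a => X - C a).prod ∣ D - g ^ 2 := by
    have h5 : (P.roots.map fun a => X - C a).prod = ∏ a ∈ R, (X - C a) := by
      rw [Finset.prod_eq_multiset_prod]
      congr 2
      exact (Multiset.dedup_eq_self.2 h3).symm
    rw [h5]
    apply Finset.prod_dvd_of_coprime
    · intro a _ b _ hab
      exact Polynomial.isCoprime_X_sub_C_of_isUnit_sub (sub_ne_zero.2 hab).isUnit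
    · intro a ha
      rw [Polynomial.dvd_iff_isRoot, IsRoot.def, eval_sub, eval_pow, hg a ha]
      have h6 : eval a P = 0 := by
        have h7 := Multiset.mem_toFinset.1 ha
        exact (Polynomial.mem_roots h0).1 h7
      rw [hs' a h6]
      ring
  rw [h2]
  have h5 : IsUnit (C P.leadingCoeff) := (leadingCoeff_ne_zero.2 h0).isUnit.map C
  exact (IsUnit.mul_left_dvd h5).2 h4

end split

end Pool.Agent.H34.N6
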