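import Pool.Agent.H34.N6.Defs
import Pool.Agent.H32.SAB.Targets

/-!
# Two quadrics in `ℙ⁶`: the main statements of the blocks
-/

set_option autoImplicit false

open Polynomial NumberField IsDedekindDomain Matrix Pool.Agent.H32.QC

namespace Pool.Agent.H34.N6

/-! ## Class field package -/

/-- split lemma (helper5): a form in seven variables which is split at all places except possibly
one finite place is split -/
def T_SPL : Prop := ∀ (K : Type) [Field K] [NumberField K] (A : Matrix (Fin 7) (Fin 7) K)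
  (w₀ : FPl K), A.IsSymm → A.det ≠ 0 →
  (∀ w : Pl K, w ≠ Sum.inl w₀ → AtPl w fun _ _ ι => TI (A.map ι) 3) → TI A 3

/-- the same for conics -/
def T_CON : Prop := ∀ (K : Type) [Field K] [NumberField K] (a b : K) (w₀ : FPl K),
  a ≠ 0 → b ≠ 0 → (∀ w : Pl K, w ≠ Sum.inl w₀ → hs w a b = 1) → Sol a b

/-- infinitely many inert places -/
def T_INERT : Prop := ∀ (K : Type) [Field K] [NumberField K] (a : K), ¬ IsSquare a →
  {v : FPl K | ¬ IsSquare (ic v a)}.Infinite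

/-! ## Block D: the local lemma -/

/-- the local lemma, nonarchimedean -/
def T_LL7 : Prop := ∀ (F : Type) [NontriviallyNormedField F] [IsUltrametricDist F] [ProperSpace F]
  [CharZero F] (P D : F[X]), P.Monic → P.natDegree = 7 → P.Separable → IsCoprime P D →
  CZ (gA P D 0) (gA P D 1) →
  ∃ A : F[X], A.Monic ∧ Irreducible A ∧ Odd A.natDegree ∧
    ∀ (E : Type) [Field E] (ι : F →+* E) (t : E), eval₂ ι t A = 0 →
      eval₂ ι t P ≠ 0 ∧ TI (ft (P.map ι) (D.map ι) t) 3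

/-! ## Block P: packaging of the local conditions -/

/-- finite places -/
def T_LF : Prop := ∀ (k : Type) [Field k] [NumberField k] (P D : k[X]), P.Monic →
  P.natDegree = 7 → P.Separable → IsCoprime P D → ∀ v : FPl k,
  CZ ((gA P D 0).map (ic v)) ((gA P D 1).map (ic v)) →
  ∃ N₀ : ℕ, ∀ N, N₀ ≤ N → Odd N → LocOK P (SplitAt P D) (Sum.inl v) N

/-- real places -/
def T_LR : Prop := ∀ (k : Type) [Field k] [NumberField k] (P D : k[X]), P.Monic →
  P.natDegree = 7 → P.Separable → IsCoprime P D → ∀ φ : k →+* ℝ,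
  ∀ N : ℕ, Odd N → LocOK P (SplitAt P D) (Sum.inr φ) N

/-- a place with a local frame -/
def T_LV : Prop := ∀ (k : Type) [Field k] [NumberField k] (P D : k[X]), P.Monic →
  P.natDegree = 7 → Irreducible P → ¬ P ∣ D → ∃ v : FPl k, ∀ N : ℕ, 1 ≤ N →
  LocOK P (fun K _ _ _ w θ => SplitAt P D K w θ ∧ PlaneAt P D K w θ) (Sum.inl v) N

/-- symbols, finite and real places: a point of degree one suffices -/
def T_LS : Prop := ∀ (k : Type) [Field k] [NumberField k] (D : k[X]) (a c : k), a ≠ 0 → c ≠ 0 →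
  D.Monic → D.Separable → Even D.natDegree → ∀ v : Pl k,
  (AtPl v fun _ _ ι => ∃ z, eval₂ ι z D ≠ 0 ∧ Sol (ι a) (ι c * eval₂ ι z D)) ∨
    hs v a c = 1 →
  ∀ N : ℕ, Odd N → LocOK D (SymAt a c D) v N

/-! ## Block F1: local planes -/

/-- local frames with irreducible quartic -/
def T_PL : Prop := ∀ (F : Type) [NontriviallyNormedField F] [IsUltrametricDist F] [ProperSpace F]
  [CharZero F] (P D : F[X]), ‖(2 : F)‖ = 1 → P.Monic → P.natDegree = 7 → P.Separable →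
  IsCoprime P D → SqMod P D → ∀ B : ℝ, ∃ t : F, B < ‖t‖ ∧ eval t P ≠ 0 ∧
    LocPlane (ft P D t) (gA P D 0)

/-! ## Block F2: over the field where the form is split -/

/-- the point of odd degree -/
def T_F2 : Prop := ∀ (K : Type) [Field K] [NumberField K] (P D : K[X]), P.Monic →
  P.natDegree = 7 → P.Separable → IsCoprime P D → ∀ θ : K, eval θ P ≠ 0 → TI (ft P D θ) 3 →
  LocCZ (gA P D 0) (gA P D 1) →
  (∃ w : FPl K, LocPlane ((ft P D θ).map (ic w)) ((gA P D 0).map (ic w))) →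
  ∃ (K' : Type) (_ : Field K') (_ : NumberField K') (_ : Algebra K K'),
    Odd (Module.finrank K K') ∧
      CZ ((gA P D 0).map (algebraMap K K')) ((gA P D 1).map (algebraMap K K'))

/-! ## Block E: the device -/

/-- the device -/
def T_DEV : Prop := ∀ (k : Type) [Field k] [NumberField k] (P D : k[X]),
  P.Monic → Irreducible P → ¬ P ∣ D → ¬ SqMod P D →
  ∀ (R : ∀ (K : Type) [Field K] [NumberField K] [Algebra k K], Pl K → K → Prop)
    (S : Finset (Pl k)) (N : ℕ) (G : Pl k → k[X]) (ε : Pl k → ℝ),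
  (∀ v : FPl k, Sum.inl v ∉ S → GoodAt P D v) → (∀ φ : k →+* ℝ, Sum.inr φ ∈ S) →
  Odd N → P.natDegree ≤ N →
  (∀ v ∈ S, 0 < ε v ∧ (G v).Monic ∧ (G v).natDegree = N ∧ IsCoprime (G v) P ∧
    (G v).Separable ∧ NearOK R v N (G v) (ε v)) →
  (∀ (K : Type) [Field K] [NumberField K] [Algebra k K] (θ : K) (w₀ : FPl K), aeval θ P ≠ 0 →
    (∀ w : Pl K, w ≠ Sum.inl w₀ → R K w θ) → ∀ w, R K w θ) →
  (∀ (K : Type) [Field K] [NumberField K] [Algebra k K] (w : FPl K) (θ : K),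
    Sum.inl (w.under (𝓞 k)) ∉ S → ‖ic w θ‖ ≤ 1 → aeval θ P ≠ 0 →
    (∀ e : w.adicCompletion K, eval₂ ((ic w).comp (algebraMap k K)) e P = 0 →
      ‖e - ic w θ‖ < 1 → IsSquare (eval₂ ((ic w).comp (algebraMap k K)) e D)) →
    R K (Sum.inl w) θ) →
  (∀ (K : Type) [Field K] [NumberField K] [Algebra k K] (w : FPl K) (θ : K),
    Sum.inl (w.under (𝓞 k)) ∉ S → ‖ic w θ‖ ≤ 1 → aeval θ P ≠ 0 →
    (∃ e : w.adicCompletion K, eval₂ ((ic w).comp (algebraMap k K)) e P = 0 ∧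
      ‖e - ic w θ‖ < 1 ∧ (∀ x : w.adicCompletion K, ‖x‖ < 1 → ‖x‖ ≤ ‖e - ic w θ‖) ∧
      ¬ IsSquare (eval₂ ((ic w).comp (algebraMap k K)) e D)) →
    ¬ R K (Sum.inl w) θ) →
  (∀ (K : Type) [Field K] [NumberField K] [Algebra k K] (w : FPl K) (θ : K), aeval θ P ≠ 0 →
    (P.map ((ic w).comp (algebraMap k K))).Splits →
    (∀ e : w.adicCompletion K, eval₂ ((ic w).comp (algebraMap k K)) e P = 0 →
      IsSquare (eval₂ ((ic w).comp (algebraMap k K)) e D)) → R K (Sum.inl w) θ) →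
  ∃ (K : Type) (_ : Field K) (_ : NumberField K) (_ : Algebra k K) (θ : K) (G' : k[X]),
    Odd (Module.finrank k K) ∧ IntermediateField.adjoin k {θ} = ⊤ ∧ aeval θ P ≠ 0 ∧
    (∀ w, R K w θ) ∧ aeval θ G' = 0 ∧ G'.Monic ∧ G'.natDegree = N ∧
    ∀ v ∈ S, Close v (ε v) G' (G v)

/-! ## Block B: good places -/

/-- good places, form split -/
def T_GB1 : Prop := ∀ (F : Type) [NontriviallyNormedField F] [IsUltrametricDist F] [ProperSpace F]
  [CharZero F] (P D : F[X]) (t : F), ‖(2 : F)‖ = 1 → P.Monic → P.natDegree = 7 →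
  (∀ i, ‖P.coeff i‖ ≤ 1) → (∀ i, ‖D.coeff i‖ ≤ 1) →
  (∃ a b : F[X], (∀ i, ‖a.coeff i‖ ≤ 1) ∧ (∀ i, ‖b.coeff i‖ ≤ 1) ∧
    a * P + b * derivative P = 1) →
  (∃ a b : F[X], (∀ i, ‖a.coeff i‖ ≤ 1) ∧ (∀ i, ‖b.coeff i‖ ≤ 1) ∧ a * P + b * D = 1) →
  IsSquare (-(gA P D 0).det) → ‖t‖ ≤ 1 → eval t P ≠ 0 →
  (∀ e : F, eval e P = 0 → ‖e - t‖ < 1 → IsSquare (eval e D)) → TI (ft P D t) 3

/-- good places, form not split -/
def T_GB2 : Prop := ∀ (F : Type) [NontriviallyNormedField F] [IsUltrametricDist F] [ProperSpace F]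
  [CharZero F] (P D : F[X]) (t : F), ‖(2 : F)‖ = 1 → P.Monic → P.natDegree = 7 →
  (∀ i, ‖P.coeff i‖ ≤ 1) → (∀ i, ‖D.coeff i‖ ≤ 1) →
  (∃ a b : F[X], (∀ i, ‖a.coeff i‖ ≤ 1) ∧ (∀ i, ‖b.coeff i‖ ≤ 1) ∧
    a * P + b * derivative P = 1) →
  (∃ a b : F[X], (∀ i, ‖a.coeff i‖ ≤ 1) ∧ (∀ i, ‖b.coeff i‖ ≤ 1) ∧ a * P + b * D = 1) →
  IsSquare (-(gA P D 0).det) → ‖t‖ ≤ 1 → eval t P ≠ 0 →
  (∃ e : F, eval e P = 0 ∧ ‖e - t‖ < 1 ∧ (∀ x : F, ‖x‖ < 1 → ‖x‖ ≤ ‖e - t‖) ∧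
    ¬ IsSquare (eval e D)) → ¬ TI (ft P D t) 3

/-! ## Block A: algebra and assembly -/

/-- squares -/
def T_SQ3 : Prop := ∀ (F : Type) [Field F] (P D : F[X]) (t : F), P.Monic → P.natDegree = 7 →
  IsCoprime P D → SqMod P D → TI (ft P D t) 3

/-- if `D` is a square modulo `P` the pencil has a common zero -/
def T_SQZ : Prop := ∀ (F : Type) [Field F] (P D : F[X]), P.Monic → P.natDegree = 7 →
  IsCoprime P D → SqMod P D → CZ (gA P D 0) (gA P D 1)

/-- the normal form -/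
def T_NF : Prop := ∀ (k : Type) [Field k] [CharZero k] (A B : Matrix (Fin 7) (Fin 7) k),
  A.IsSymm → B.IsSymm → Irreducible ((X : k[X]) • B.map (C : k →+* k[X]) - A.map (C : k →+* k[X])).det →
  ((X : k[X]) • B.map (C : k →+* k[X]) - A.map (C : k →+* k[X])).det.natDegree = 7 →
  ∃ (P D : k[X]) (Q : Matrix (Fin 7) (Fin 7) k) (c : k), P.Monic ∧ P.natDegree = 7 ∧
    Irreducible P ∧ ¬ P ∣ D ∧ IsSquare (-(gA P D 0).det) ∧ c ≠ 0 ∧ IsUnit Q.det ∧
    c • (Qᵀ * A * Q) = gA P D 1 ∧ c • (Qᵀ * B * Q) = gA P D 0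

/-- the theorem for the model -/
def T_CORE : Prop := ∀ (k : Type) [Field k] [NumberField k] (P D : k[X]), P.Monic →
  P.natDegree = 7 → Irreducible P → ¬ P ∣ D → IsSquare (-(gA P D 0).det) →
  LocCZ (gA P D 0) (gA P D 1) → CZ (gA P D 0) (gA P D 1)

/-- the theorem for two quadratic forms -/
def T_MAIN : Prop := ∀ (k : Type) [Field k] [NumberField k] (A B : Matrix (Fin 7) (Fin 7) k),
  A.IsSymm → B.IsSymm → Irreducible ((X : k[X]) • B.map (C : k →+* k[X]) - A.map (C : k →+* k[X])).det →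
  ((X : k[X]) • B.map (C : k →+* k[X]) - A.map (C : k →+* k[X])).det.natDegree = 7 → LocCZ A B → CZ A B

end Pool.Agent.H34.N6
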