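import Pool.Agent.H34.N6.AsmB

/-!
# Two quadrics in `ℙ⁶`: the local data and the main theorem for the model from the blocks
-/

set_option autoImplicit false

open Polynomial NumberField IsDedekindDomain Matrix Pool.Agent.H32.QC

namespace Pool.Agent.H34.N6

/-- finite places, the degrees are the multiples of an odd number -/
def T_LFM : Prop := ∀ (k : Type) [Field k] [NumberField k] (P D : k[X]), P.Monic →
  P.natDegree = 7 → P.Separable → IsCoprime P D → ∀ v : FPl k,
  CZ ((gA P D 0).map (ic v)) ((gA P D 1).map (ic v)) →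
  ∃ a : ℕ, Odd a ∧ ∀ m : ℕ, 1 ≤ m → LocOK P (SplitAt P D) (Sum.inl v) (a * m)

/-- the polynomials at the places of a finite set -/
theorem local_data (hLF : T_LFM) (hLR : T_LR) {k : Type} [Field k] [NumberField k] {P D : k[X]}
    (hP : P.Monic) (h7 : P.natDegree = 7) (hsep : P.Separable) (hD : IsCoprime P D)
    (hloc : LocCZ (gA P D 0) (gA P D 1)) (S : Finset (Pl k)) :
    ∃ (N : ℕ) (G : Pl k → k[X]) (ε : Pl k → ℝ), Odd N ∧ P.natDegree ≤ N ∧
      ∀ v ∈ S, 0 < ε v ∧ (G v).Monic ∧ (G v).natDegree = N ∧ IsCoprime (G v) P ∧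
        (G v).Separable ∧ NearOK (SplitAt P D) v N (G v) (ε v) := by
  classical
  have hA : ∀ v : Pl k, ∃ a : ℕ, Odd a ∧ ∀ m : ℕ, Odd m → LocOK P (SplitAt P D) v (a * m) := by
    intro v
    cases v with
    | inl v =>
      obtain ⟨a, ha, h⟩ := hLF k P D hP h7 hsep hD v (hloc (Sum.inl v))
      exact ⟨a, ha, fun m hm => h m hm.pos⟩
    | inr φ =>
      refine ⟨1, odd_one, fun m hm => ?_⟩
      rw [one_mul]
      exact hLR k P D hP h7 hsep hD φ m hm
  choose a ha hloc' using hA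
  have hodd : ∀ T : Finset (Pl k), Odd (∏ v ∈ T, a v) := by
    intro T
    induction T using Finset.induction_on with
    | empty => rw [Finset.prod_empty]; exact odd_one
    | insert v T hv ih => rw [Finset.prod_insert hv]; exact (ha v).mul ih
  have h7o : Odd 7 := ⟨3, rfl⟩
  have hall : ∀ v : Pl k, ∃ (G : k[X]) (ε : ℝ), v ∈ S → 0 < ε ∧ G.Monic ∧
      G.natDegree = 7 * ∏ v ∈ S, a v ∧ IsCoprime G P ∧ G.Separable ∧
      NearOK (SplitAt P D) v (7 * ∏ v ∈ S, a v) G ε := by
    intro v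
    by_cases hv : v ∈ S
    · have h1 : 7 * ∏ v ∈ S, a v = a v * (7 * ∏ v ∈ S.erase v, a v) := by
        rw [← Finset.mul_prod_erase S a hv]
        ring
      have h2 := hloc' v (7 * ∏ v ∈ S.erase v, a v) (h7o.mul (hodd _))
      rw [← h1] at h2
      obtain ⟨G, ε, h3⟩ := h2
      exact ⟨G, ε, fun _ => h3⟩
    · exact ⟨0, 0, fun h => absurd h hv⟩
  choose G ε hG using hall
  refine ⟨7 * ∏ v ∈ S, a v, G, ε, h7o.mul (hodd _), ?_, hG⟩
  rw [h7]
  exact Nat.le_mul_of_pos_right 7 (hodd S).pos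

/-- the last part of the proof: from a point where the form is split to a common zero -/
theorem final_part (hODC : Pool.Agent.H32.SAB.T_ODC) (hSPL : T_SPL) (hF2 : T_F2S) {k : Type}
    [Field k] [NumberField k] {P D : k[X]} (hP : P.Monic) (h7 : P.natDegree = 7)
    (hsep : P.Separable) (hD : IsCoprime P D) (hloc : LocCZ (gA P D 0) (gA P D 1))
    (K : Type) [Field K] [NumberField K] [Algebra k K] (θ : K) (w₁ : FPl K)
    (hodd : Odd (Module.finrank k K)) (hne : aeval θ P ≠ 0) (hR : ∀ w, SplitAt P D K w θ)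
    (hs1 : (P.map ((ic w₁).comp (algebraMap k K))).Splits)
    (hs2 : ∀ e : w₁.adicCompletion K, eval₂ ((ic w₁).comp (algebraMap k K)) e P = 0 →
      IsSquare (eval₂ ((ic w₁).comp (algebraMap k K)) e D)) : CZ (gA P D 0) (gA P D 1) := by
  have hSqw := (split_of_sq hP h7 hsep hD w₁ θ hs1 hs2).1
  have hTI := (all_but_one hSPL hP h7 hD θ w₁ hne (fun w _ => hR w)).1
  obtain ⟨K', i1, i2, i3, hodd', hcz⟩ := hF2 K (P.map (algebraMap k K))
    (D.map (algebraMap k K)) (hP.map _) (by rw [hP.natDegree_map, h7]) hsep.map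
    (hD.map (Polynomial.mapRingHom (algebraMap k K))) θ
    (by rw [eval_map, ← aeval_def]; exact hne) hTI
    (by rw [gA_map hP, gA_map hP]; exact hloc.up)
    ⟨w₁, by rw [Polynomial.map_map, Polynomial.map_map]; exact hSqw⟩
  let iA' : Algebra k K' := ((algebraMap K K').comp (algebraMap k K)).toAlgebra
  have iT : IsScalarTower k K K' := IsScalarTower.of_algebraMap_eq fun _ => rfl
  have iF1 := finiteDim_of_odd hodd
  have iF2 := finiteDim_of_odd hodd'
  have iF3 : FiniteDimensional k K' := FiniteDimensional.trans k K K'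
  have hodd2 : Odd (Module.finrank k K') := by
    rw [← Module.finrank_mul_finrank k K K']
    exact hodd.mul hodd'
  have hcz' : Pool.Agent.H32.SAB.IsoP (gA P D 0) (gA P D 1) K' := by
    rw [isoP_iff]
    rw [gA_map hP, gA_map hP, Matrix.map_map, Matrix.map_map] at hcz
    exact hcz
  have hfinal := hODC k K' hodd2 7 _ _ (gA_symm P D 0) (gA_symm P D 1) hcz'
  rw [isoP_iff] at hfinal
  have hid : ∀ M : Matrix (Fin 7) (Fin 7) k, M.map (algebraMap k k) = M := by
    intro M
    ext i j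
    rfl
  rw [hid, hid] at hfinal
  exact hfinal

/-- the set of places -/
theorem exists_bad {k : Type} [Field k] [NumberField k] {B : Set (FPl k)} (hB : B.Finite) :
    ∃ S : Finset (Pl k), (∀ v : FPl k, Sum.inl v ∉ S → v ∉ B) ∧
      ∀ φ : k →+* ℝ, Sum.inr φ ∈ S := by
  classical
  refine ⟨hB.toFinset.image Sum.inl ∪ (Finset.univ : Finset (k →+* ℝ)).image Sum.inr, ?_, ?_⟩
  · intro v hv hcon
    apply hv
    apply Finset.mem_union_left
    apply Finset.mem_image_of_mem
    rw [Set.Finite.mem_toFinset]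
    exact hcon
  · intro φ
    apply Finset.mem_union_right
    exact Finset.mem_image_of_mem _ (Finset.mem_univ φ)

theorem pf_COREM (hADC : T_ADC) (hODC : Pool.Agent.H32.SAB.T_ODC) (hLF : T_LFM) (hLR : T_LR)
    (hDEV : T_DEV) (hSPL : T_SPL) (hGB1 : T_GB1) (hGB2 : T_GB2) (hF2 : T_F2S) (hSPP : T_SPP) :
    T_CORE := by
  intro k _ _ P D hP h7 hirr hPD hsq hloc
  have hD : IsCoprime P D := hirr.coprime_iff_not_dvd.2 hPD
  have hsep : P.Separable := hirr.separable
  by_cases hSq : SqMod P D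
  · exact pf_SQZ k P D hP h7 hD hSq
  obtain ⟨S, hS1, hS2⟩ := exists_bad (bad_fin hsep hD)
  have hgood : ∀ v : FPl k, Sum.inl v ∉ S → GoodAt P D v := by
    intro v hv
    by_contra hcon
    exact hS1 v hv hcon
  obtain ⟨N, G, ε, hNodd, hN7, hG⟩ := local_data hLF hLR hP h7 hsep hD hloc S
  obtain ⟨K, iF, iN, iA, θ, G', hodd, hgen, hne, hR, -, -, -, -⟩ :=
    hDEV k P D hP hirr hPD hSq (SplitAt P D) S N G ε hgood hS2 hNodd hN7 hG
      (fun K _ _ _ θ w₀ hne h => (all_but_one hSPL hP h7 hD θ w₀ hne h).2)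
      (fun K _ _ _ w θ hw hθ hne h => gb1_apply hADC hGB1 hP h7 hsq w θ (hgood _ hw) hθ hne h)
      (fun K _ _ _ w θ hw hθ hne h => gb2_apply hADC hGB2 hP h7 hsq w θ (hgood _ hw) hθ hne h)
      (fun K _ _ _ w θ _ h1 h2 => (split_of_sq hP h7 hsep hD w θ h1 h2).2)
  obtain ⟨p, hp, -, hsplit⟩ := hSPP k P D hirr hPD 0
  obtain ⟨w₁, hw₁⟩ := exists_place (K := K) p hp
  obtain ⟨hs1, hs2⟩ := hsplit K w₁ hw₁
  exact final_part hODC hSPL hF2 hP h7 hsep hD hloc K θ w₁ hodd hne hR hs1 hs2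

end Pool.Agent.H34.N6
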