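import Pool.Agent.H34.N6.Asm

/-!
# Two quadrics in `ℙ⁶`: the main theorem for the model from the blocks
-/

set_option autoImplicit false

open Polynomial NumberField IsDedekindDomain Matrix Pool.Agent.H32.QC

namespace Pool.Agent.H34.N6

theorem finiteDim_of_odd {F E : Type} [Field F] [Field E] [Algebra F E]
    (h : Odd (Module.finrank F E)) : FiniteDimensional F E :=
  Module.finite_of_finrank_pos h.pos

theorem pf_CORE (hADC : T_ADC) (hODC : Pool.Agent.H32.SAB.T_ODC) (hLF : T_LF) (hLR : T_LR)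
    (hDEV : T_DEV) (hSPL : T_SPL) (hGB1 : T_GB1) (hGB2 : T_GB2) (hF2 : T_F2S) (hSPP : T_SPP) :
    T_CORE := by
  intro k _ _ P D hP h7 hirr hPD hsq hloc
  have hD : IsCoprime P D := hirr.coprime_iff_not_dvd.2 hPD
  have hsep : P.Separable := hirr.separable
  by_cases hSq : SqMod P D
  · exact pf_SQZ k P D hP h7 hD hSq
  classical
  have hfin := bad_fin hsep hD
  have hLF' : ∀ v : FPl k, ∃ N₀ : ℕ, ∀ N, N₀ ≤ N → Odd N →
      LocOK P (SplitAt P D) (Sum.inl v) N := by
    intro v
    exact hLF k P D hP h7 hsep hD v (hloc (Sum.inl v))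
  choose N₀ hN₀ using hLF'
  set Sf : Finset (FPl k) := hfin.toFinset with hSf
  set N : ℕ := 2 * (∑ v ∈ Sf, N₀ v) + 7 with hN
  have hNodd : Odd N := ⟨(∑ v ∈ Sf, N₀ v) + 3, by omega⟩
  have hN7 : P.natDegree ≤ N := by omega
  set S : Finset (Pl k) := Sf.image Sum.inl ∪ (Finset.univ : Finset (k →+* ℝ)).image Sum.inr
    with hS
  have hAll : ∀ v : Pl k, ∃ (G : k[X]) (ε : ℝ), v ∈ S → 0 < ε ∧ G.Monic ∧ G.natDegree = N ∧
      IsCoprime G P ∧ G.Separable ∧ NearOK (SplitAt P D) v N G ε := by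
    intro v
    by_cases hv : v ∈ S
    · have h1 : LocOK P (SplitAt P D) v N := by
        cases v with
        | inl v =>
          apply hN₀ v N _ hNodd
          have h2 : v ∈ Sf := by
            rw [hS, Finset.mem_union, Finset.mem_image, Finset.mem_image] at hv
            rcases hv with ⟨u, hu, hu2⟩ | ⟨u, hu, hu2⟩
            · rw [← Sum.inl.inj hu2]
              exact hu
            · cases hu2
          have h3 := Finset.single_le_sum (f := N₀) (fun i _ => Nat.zero_le _) h2
          omega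
        | inr φ => exact hLR k P D hP h7 hsep hD φ N hNodd
      obtain ⟨G, ε, h2⟩ := h1
      exact ⟨G, ε, fun _ => h2⟩
    · exact ⟨0, 0, fun h => absurd h hv⟩
  choose G ε hG using hAll
  have hgood : ∀ v : FPl k, Sum.inl v ∉ S → GoodAt P D v := by
    intro v hv
    by_contra hcon
    apply hv
    rw [hS]
    apply Finset.mem_union_left
    apply Finset.mem_image_of_mem
    rw [hSf, Set.Finite.mem_toFinset]
    exact hcon
  obtain ⟨K, iF, iN, iA, θ, G', hodd, hgen, hne, hR, -, -, -, -⟩ :=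
    hDEV k P D hP hirr hPD hSq (SplitAt P D) S N G ε hgood
      (fun φ => by
        rw [hS]
        apply Finset.mem_union_right
        exact Finset.mem_image_of_mem _ (Finset.mem_univ φ))
      hNodd hN7 (fun v hv => hG v hv)
      (fun K _ _ _ θ w₀ hne h => (all_but_one hSPL hP h7 hD θ w₀ hne h).2)
      (fun K _ _ _ w θ hw hθ hne h => gb1_apply hADC hGB1 hP h7 hsq w θ (hgood _ hw) hθ hne h)
      (fun K _ _ _ w θ hw hθ hne h => gb2_apply hADC hGB2 hP h7 hsq w θ (hgood _ hw) hθ hne h)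
      (fun K _ _ _ w θ _ h1 h2 => (split_of_sq hP h7 hsep hD w θ h1 h2).2)
  obtain ⟨p, hp, -, hsplit⟩ := hSPP k P D hirr hPD 0
  obtain ⟨w₁, hw₁⟩ := exists_place (K := K) p hp
  obtain ⟨hs1, hs2⟩ := hsplit K w₁ hw₁
  have hSqw := (split_of_sq hP h7 hsep hD w₁ θ hs1 hs2).1
  have hTI := (all_but_one hSPL hP h7 hD θ w₁ hne (fun w _ => hR w)).1
  obtain ⟨K', i1, i2, i3, hodd', hcz⟩ := hF2 K (P.map (algebraMap k K))
    (D.map (algebraMap k K)) (hP.map _) (by rw [hP.natDegree_map, h7]) hsep.map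
    (hD.map (Polynomial.mapRingHom (algebraMap k K))) θ
    (by rw [eval_map, ← aeval_def]; exact hne) hTI
    (by rw [gA_map hP, gA_map hP]; exact hloc.up)
    ⟨w₁, by rw [Polynomial.map_map, Polynomial.map_map]; exact hSqw⟩
  letI iA' : Algebra k K' := ((algebraMap K K').comp (algebraMap k K)).toAlgebra
  haveI : IsScalarTower k K K' := IsScalarTower.of_algebraMap_eq fun _ => rfl
  haveI := finiteDim_of_odd hodd
  haveI := finiteDim_of_odd hodd'
  haveI : FiniteDimensional k K' := FiniteDimensional.trans k K K'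
  have hodd2 : Odd (Module.finrank k K') := by
    rw [← Module.finrank_mul_finrank k K K']
    exact hodd.mul hodd'
  have hcz' : Pool.Agent.H32.SAB.IsoP (gA P D 0) (gA P D 1) K' := by
    rw [isoP_iff]
    rw [gA_map hP, gA_map hP, Matrix.map_map, Matrix.map_map] at hcz
    exact hcz
  have hfinal := hODC k K' hodd2 7 _ _ (gA_symm P D 0) (gA_symm P D 1) hcz'
  rw [isoP_iff] at hfinal
  have hid : ∀ M : Matrix (Fin 7) (Fin 7) k, M.map (algebraMap k k) = M := by
    intro M
    ext i j
    rfl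
  rw [hid, hid] at hfinal
  exact hfinal

end Pool.Agent.H34.N6
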