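import Pool.Agent.H32.QC.Defs

/-!
# Two quadrics in `ℙ⁶`: common definitions

`P` is monic of degree seven, `D` a polynomial prime to `P` which represents `δ`, the forms are
`f_t(h) = λ(D (X - t) h²)` on `F[X]/(P)`, where `λ(g)` is the coefficient of `X ^ 6` of `g` modulo
`P`.
-/

set_option autoImplicit false

open Polynomial NumberField IsDedekindDomain Matrix Pool.Agent.H32.QC

namespace Pool.Agent.H34.N6

/-- the top coefficient of the remainder modulo `P` -/
noncomputable def lam {F : Type*} [Field F] (P g : F[X]) : F := (g %ₘ P).coeff (P.natDegree - 1)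

/-- the Gram matrices of the pencil -/
noncomputable def gA {F : Type*} [Field F] (P D : F[X]) (s : ℕ) : Matrix (Fin 7) (Fin 7) F :=
  fun i j => lam P (D * X ^ ((i : ℕ) + (j : ℕ) + s))

/-- the member of the pencil at `t` -/
noncomputable def ft {F : Type*} [Field F] (P D : F[X]) (t : F) : Matrix (Fin 7) (Fin 7) F :=
  gA P D 1 - t • gA P D 0

/-- there is a totally isotropic subspace of dimension `r` -/
def TI {F : Type*} [Field F] {n : ℕ} (A : Matrix (Fin n) (Fin n) F) (r : ℕ) : Prop :=
  ∃ b : Fin r → Fin n → F, LinearIndependent F b ∧ ∀ i j, b i ⬝ᵥ (A *ᵥ b j) = 0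

/-- a common nontrivial zero -/
def CZ {F : Type*} [Field F] {n : ℕ} (A B : Matrix (Fin n) (Fin n) F) : Prop :=
  ∃ x : Fin n → F, x ≠ 0 ∧ x ⬝ᵥ (A *ᵥ x) = 0 ∧ x ⬝ᵥ (B *ᵥ x) = 0

/-- a property of the completion at a place -/
def AtPl {K : Type} [Field K] [NumberField K] (w : Pl K)
    (Φ : ∀ (F : Type) [Field F], (K →+* F) → Prop) : Prop :=
  match w with
  | .inl v => Φ (v.adicCompletion K) (ic v)
  | .inr φ => Φ ℝ φ

/-- the absolute value at a place -/
noncomputable def av {K : Type} [Field K] [NumberField K] (w : Pl K) (x : K) : ℝ :=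
  match w with
  | .inl v => ‖ic v x‖
  | .inr φ => |φ x|

/-- the place below -/
noncomputable def bel {k K : Type} [Field k] [NumberField k] [Field K] [NumberField K]
    [Algebra k K] (w : Pl K) : Pl k :=
  match w with
  | .inl w => .inl (w.under (𝓞 k))
  | .inr φ => .inr (φ.comp (algebraMap k K))

/-- the coefficients of the two polynomials are close at `v` -/
def Close {k : Type} [Field k] [NumberField k] (v : Pl k) (ε : ℝ) (G G' : k[X]) : Prop :=
  ∀ i, av v ((G - G').coeff i) < ε

/-- the coefficients are integral at `v` -/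
def Int {k : Type} [Field k] [NumberField k] (v : FPl k) (G : k[X]) : Prop :=
  ∀ i, ‖ic v (G.coeff i)‖ ≤ 1

/-- good reduction of the pair `(P, D)` at the finite place `v` -/
structure GoodAt {k : Type} [Field k] [NumberField k] (P D : k[X]) (v : FPl k) : Prop where
  two : ‖ic v 2‖ = 1
  intP : Int v P
  intD : Int v D
  sep : ∃ a b : k[X], Int v a ∧ Int v b ∧ a * P + b * derivative P = 1
  cop : ∃ a b : k[X], Int v a ∧ Int v b ∧ a * P + b * D = 1

/-- `D` is a square modulo `P` -/
def SqMod {F : Type*} [Field F] (P D : F[X]) : Prop := ∃ s : F[X], P ∣ D - s ^ 2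

/-- the property `R` holds at all roots (generating the field) of all polynomials of degree `N`
close to `G` at `v` -/
def NearOK {k : Type} [Field k] [NumberField k]
    (R : ∀ (K : Type) [Field K] [NumberField K] [Algebra k K], Pl K → K → Prop)
    (v : Pl k) (N : ℕ) (G : k[X]) (ε : ℝ) : Prop :=
  ∀ G' : k[X], G'.Monic → G'.natDegree = N → Close v ε G' G →
    ∀ (K : Type) [Field K] [NumberField K] [Algebra k K] (w : Pl K), bel (k := k) w = v →
      ∀ θ : K, IntermediateField.adjoin k {θ} = ⊤ → aeval θ G' = 0 → R K w θ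

/-- there is a polynomial of degree `N`, prime to `P`, near which the property holds -/
def LocOK {k : Type} [Field k] [NumberField k] (P : k[X])
    (R : ∀ (K : Type) [Field K] [NumberField K] [Algebra k K], Pl K → K → Prop)
    (v : Pl k) (N : ℕ) : Prop :=
  ∃ (G : k[X]) (ε : ℝ), 0 < ε ∧ G.Monic ∧ G.natDegree = N ∧ IsCoprime G P ∧ G.Separable ∧
    NearOK R v N G ε

/-- the form at `θ` is split at the place `w` -/
def SplitAt {k : Type} [Field k] (P D : k[X])
    (K : Type) [Field K] [NumberField K] [Algebra k K] (w : Pl K) (θ : K) : Prop :=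
  AtPl w fun _ _ ι => TI (ft (P.map (ι.comp (algebraMap k K))) (D.map (ι.comp (algebraMap k K)))
    (ι θ)) 3

/-- the symbol `(a, c D(θ))` is trivial at the place `w` -/
def SymAt {k : Type} [Field k] (a c : k) (D : k[X])
    (K : Type) [Field K] [NumberField K] [Algebra k K] (w : Pl K) (θ : K) : Prop :=
  hs w (algebraMap k K a) (algebraMap k K c * aeval θ D) = 1

/-- the split form `3 H + <d>`; basis `e₀ e₁ e₂` isotropic, `e₃` of length `d`, `e₄ e₅ e₆` dual -/
def JJ {F : Type*} [Field F] (d : F) : Matrix (Fin 7) (Fin 7) F := fun i j =>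
  if (i : ℕ) + 4 = j ∨ (j : ℕ) + 4 = i then 1 else if (i : ℕ) = 3 ∧ (j : ℕ) = 3 then d else 0

/-- the vectors `e₀`, `e₁` and `u(z) = e₆ + z e₃ - (d / 2) z² e₂`, with `z` the variable -/
noncomputable def uu {F : Type*} [Field F] (d : F) : Fin 3 → Fin 7 → F[X] :=
  ![![1, 0, 0, 0, 0, 0, 0], ![0, 1, 0, 0, 0, 0, 0], ![0, 0, -C (d / 2) * X ^ 2, X, 0, 0, 1]]

/-- the determinant of `q` on `e₀`, `e₁`, `u(z)` -/
noncomputable def quart {F : Type*} [Field F] (q : Matrix (Fin 7) (Fin 7) F) (d : F) : F[X] :=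
  (Matrix.of fun i j : Fin 3 => uu d i ⬝ᵥ (q.map C *ᵥ uu d j)).det

/-- the restriction of `q` to `e₀`, `e₁`, `e₂` -/
def blk {F : Type*} [Field F] (q : Matrix (Fin 7) (Fin 7) F) : Matrix (Fin 3) (Fin 3) F :=
  fun i j => q ⟨i, by omega⟩ ⟨j, by omega⟩

/-- a frame of `f` for which `q` is isotropic on `e₀ e₁ e₂` and the quartic is irreducible -/
def LocPlane {F : Type*} [Field F] (f q : Matrix (Fin 7) (Fin 7) F) : Prop :=
  ∃ (B : Matrix (Fin 7) (Fin 7) F) (d : F), IsUnit B.det ∧ d ≠ 0 ∧ Bᵀ * f * B = JJ d ∧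
    Irreducible (quart (Bᵀ * q * B) d) ∧ (quart (Bᵀ * q * B) d).natDegree = 4 ∧
    TI (blk (Bᵀ * q * B)) 1

/-- the local frame at the place `w` for the form at `θ` -/
def PlaneAt {k : Type} [Field k] (P D : k[X])
    (K : Type) [Field K] [NumberField K] [Algebra k K] (w : Pl K) (θ : K) : Prop :=
  AtPl w fun _ _ ι => LocPlane
    (ft (P.map (ι.comp (algebraMap k K))) (D.map (ι.comp (algebraMap k K))) (ι θ))
    (gA (P.map (ι.comp (algebraMap k K))) (D.map (ι.comp (algebraMap k K))) 0)

/-- common zeros at all places -/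
def LocCZ {K : Type} [Field K] [NumberField K] {n : ℕ} (A B : Matrix (Fin n) (Fin n) K) : Prop :=
  ∀ w : Pl K, AtPl w fun _ _ ι => CZ (A.map ι) (B.map ι)

end Pool.Agent.H34.N6
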